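import Pool.Agent.L7h31.CP.Stm

/-! Project CP: WIS, WIN, TIL. -/

set_option autoImplicit false

namespace Pool.Agent.L7h99.CP

open Pool.Agent.L7h31.CP
open Pool.Agent.L7h31.CE (IsPolytope IsFace IsTiling E mk hor ver)
open scoped BigOperators Topology

theorem s_WIS : Pool.Agent.L7h31.CE.S_DST → S_WIS := by
  intro hD r σ s b δ β hs hδ
  obtain ⟨h1, h2, h3, _⟩ := hD r
  have hss : ∀ a, s a * s a = 1 := by
    intro a
    rcases hs a with h | h <;> rw [h] <;> norm_num
  have hδδ : δ * δ = 1 := by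
    rcases hδ with h | h <;> rw [h] <;> norm_num
  let f : E r → E r := fun z => mk (fun c => s (σ.symm c) * hor z (σ.symm c) + b c) (δ * ver z + β)
  let f' : E r → E r := fun z => mk (fun a => s a * (hor z (σ a) - b (σ a))) (δ * (ver z - β))
  have hf1 : ∀ z c, hor (f z) c = s (σ.symm c) * hor z (σ.symm c) + b c := fun z c => (h1 _ _).1 c
  have hf2 : ∀ z, ver (f z) = δ * ver z + β := fun z => (h1 _ _).2
  have hf3 : ∀ z a, hor (f' z) a = s a * (hor z (σ a) - b (σ a)) := fun z a => (h1 _ _).1 a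
  have hf4 : ∀ z, ver (f' z) = δ * (ver z - β) := fun z => (h1 _ _).2
  have hinv : ∀ z, f (f' z) = z := by
    intro z
    apply h2
    · intro c
      rw [hf1, hf3, Equiv.apply_symm_apply]
      linear_combination (hor z c - b c) * hss (σ.symm c)
    · rw [hf2, hf4]
      linear_combination (ver z - β) * hδδ
  have hiso : Isometry f := by
    apply Isometry.of_dist_eq
    intro z w
    have e : dist (f z) (f w) ^ 2 = dist z w ^ 2 := by
      rw [h3, h3, hf2, hf2]
      have e1 : (∑ c, (hor (f z) c - hor (f w) c) ^ 2) = ∑ a, (hor z a - hor w a) ^ 2 := by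
        rw [← Equiv.sum_comp σ]
        apply Finset.sum_congr rfl
        intro a _
        rw [hf1, hf1, Equiv.symm_apply_apply]
        linear_combination (hor z a - hor w a) ^ 2 * hss a
      rw [e1]
      linear_combination (ver z - ver w) ^ 2 * hδδ
    exact (pow_left_inj₀ dist_nonneg dist_nonneg two_ne_zero).1 e
  refine ⟨IsometryEquiv.mk' f f' hinv hiso, ?_⟩
  intro z
  constructor
  · intro a
    show hor (f z) (σ a) = _
    rw [hf1, Equiv.symm_apply_apply]
  · show ver (f z) = _
    rw [hf2]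

theorem s_WIN : S_WST → S_WIS → S_IMG → S_WIN := by
  intro hW hI hM r K hK i j ν μ
  obtain ⟨σ, s, δ, hs, hδ, hv⟩ := hW r K hK i j
  set β : ℤ := if δ = 1 then j - i else i + j + 1 with hβ
  set b : Fin r → ℤ := fun c => μ c - s (σ.symm c) * ν (σ.symm c) -
    (if δ = -1 then s (σ.symm c) * vz r i (σ.symm c) else 0) -
    (if s (σ.symm c) = -1 then -1 else 0) with hb
  have hsR : ∀ a, (s a : ℝ) = 1 ∨ (s a : ℝ) = -1 := by
    intro a
    rcases hs a with h | h
    · left; rw [h]; norm_num
    · right; rw [h]; norm_num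
  have hδR : (δ : ℝ) = 1 ∨ (δ : ℝ) = -1 := by
    rcases hδ with h | h
    · left; rw [h]; norm_num
    · right; rw [h]; norm_num
  obtain ⟨g, hg⟩ := hI r σ (fun a => (s a : ℝ)) (fun c => (b c : ℝ)) δ β hsR hδR
  have hβ1 : ∀ t : ℤ, δ = 1 → j + δ * t = (i + t) + β := by
    intro t h
    rw [hβ, if_pos h, h]
    ring
  have hβ2 : ∀ t : ℤ, δ = -1 → j + δ * t = β - (i + t) - 1 := by
    intro t h
    have h' : ¬ δ = 1 := by omega
    rw [hβ, if_neg h', h]
    ring
  have key : ∀ t : ℤ, |t| ≤ K → ∀ ν' μ' : Fin r → ℤ,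
      (∀ a, μ' (σ a) = s a * ν' a + b (σ a) + (if δ = -1 then s a * vz r (i + t) a else 0) +
        (if s a = -1 then -1 else 0)) →
      g '' tile (i + t) ν' = tile (j + δ * t) μ' := by
    intro t ht ν' μ' h
    exact hM r g σ s b δ β hs hδ hg (i + t) (j + δ * t) ν' μ' (hβ1 t) (hβ2 t) (hv t ht) h
  have hss : ∀ a, s a * s a = 1 := by
    intro a
    rcases hs a with h | h <;> rw [h] <;> norm_num
  refine ⟨g, δ, hδ, ?_, ?_⟩
  · have h0 := key 0 (by simp) ν μ (by
      intro a
      rw [hb]
      simp only [Equiv.symm_apply_apply, add_zero]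
      ring)
    simpa using h0
  · intro t ht
    constructor
    · intro ν'
      refine ⟨fun c => s (σ.symm c) * ν' (σ.symm c) + b c +
        (if δ = -1 then s (σ.symm c) * vz r (i + t) (σ.symm c) else 0) +
        (if s (σ.symm c) = -1 then -1 else 0), ?_⟩
      apply key t ht
      intro a
      simp only [Equiv.symm_apply_apply]
    · intro μ'
      refine ⟨fun a => s a * (μ' (σ a) - b (σ a) - (if δ = -1 then s a * vz r (i + t) a else 0) -
        (if s a = -1 then -1 else 0)), ?_⟩
      apply key t ht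
      intro a
      linear_combination (-(μ' (σ a) - b (σ a) - (if δ = -1 then s a * vz r (i + t) a else 0) -
        (if s a = -1 then -1 else 0))) * hss a

theorem s_TIL : S_COV → S_DIS → S_POLY → S_FAC0 → S_FAC1 → S_ADJ → S_TIL := by
  intro hC hD hP h0 h1 hA r
  refine ⟨?_, ?_, ?_, ?_, ?_⟩
  · have e : tiles r = Set.range (fun x : ℤ × (Fin r → ℤ) => (tile x.1 x.2 : Set (E r))) := by
      ext P
      constructor
      · rintro ⟨i, ν, rfl⟩
        exact ⟨(i, ν), rfl⟩
      · rintro ⟨⟨i, ν⟩, rfl⟩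
        exact ⟨i, ν, rfl⟩
    rw [e]
    exact Set.countable_range _
  · intro z
    obtain ⟨i, ν, h⟩ := hC r z
    exact ⟨_, ⟨i, ν, rfl⟩, h⟩
  · rintro P ⟨i, ν, rfl⟩ Q ⟨j, μ, rfl⟩ hne
    exact hD r i j ν μ hne
  · rintro P ⟨i, ν, rfl⟩
    exact hP r i ν
  · rintro P ⟨i, ν, rfl⟩ Q ⟨j, μ, rfl⟩ hne
    by_cases hem : (tile i ν : Set (E r)) ∩ tile j μ = ∅
    · exact Or.inl hem
    · right
      have hadj := hA r i j ν μ (Set.nonempty_iff_ne_empty.2 hem)
      have hcase : j = i ∨ j = i + 1 ∨ i = j + 1 := by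
        rw [abs_le] at hadj
        omega
      rcases hcase with rfl | rfl | rfl
      · have hνμ : ν ≠ μ := by
          rintro rfl
          exact hne rfl
        constructor
        · exact (h0 r j ν μ hνμ).resolve_left hem
        · have h2 := h0 r j μ ν (Ne.symm hνμ)
          rw [Set.inter_comm] at h2
          exact h2.resolve_left hem
      · exact (h1 r i ν μ).resolve_left hem
      · have h2 := h1 r j μ ν
        rw [Set.inter_comm] at h2
        have h3 := h2.resolve_left hem
        exact ⟨h3.2, h3.1⟩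

end Pool.Agent.L7h99.CP
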